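import Pool.Agent.H12.GW.Class

/-!
# The increments of the geodesic of the directed landscape

Full answer to MP_c0d2f2_pr (for `0 ≤ t < u < 1/2` the laws of `η_t` and `η_u` are mutually
absolutely continuous if and only if `t > 0`), and the classification of all windows which contains
it: the laws of the rescaled increments over two windows `[a, b]`, `[c, d]` of `[0, 1]`, of any
lengths, are mutually absolutely continuous if the windows are of the same kind (inside, at the
start, at the end, everything) and mutually singular otherwise.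
-/

open MeasureTheory ProbabilityTheory Pool.Agent.H37.DL Pool.Agent.H12.GW

namespace Pool.Agent.Results.MP_c0d2f2_pr.GeodesicIncrements

/-- Let `L` be the directed landscape and let `Pi` be a (measurable choice of the almost surely
unique) geodesic from `(0, 0)` to `(0, 1)`.

The posed question: for all `0 ≤ t < u < 1/2`, the laws of the increments `η_t` and `η_u` on the
space of continuous functions on `[0, 1/2]` are mutually absolutely continuous if and only if
`t > 0`.

The classification: for all windows `[a, b]` and `[c, d]` of `[0, 1]`, the laws of the rescaled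
increments `s ↦ (b - a) ^ (-2/3) (Pi (a + (b - a) s) - Pi a)` and
`s ↦ (d - c) ^ (-2/3) (Pi (c + (d - c) s) - Pi c)` on the space of continuous functions on `[0, 1]`
are mutually absolutely continuous if `a = 0 ↔ c = 0` and `b = 1 ↔ d = 1`, and they are mutually
singular in all other cases. -/
theorem result {Ω : Type*} [MeasurableSpace Ω] (P : Measure Ω) [IsProbabilityMeasure P]
    (L : Ω → ℝ → ℝ → ℝ → ℝ → ℝ) (hL : IsDirectedLandscape P L)
    (Pi : Ω → C(unitInterval, ℝ)) (hPi : Measurable Pi)
    (hgeo : ∀ᵐ ω ∂P, IsGeodesic (L ω) (Pi ω)) :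
    (∀ t u : ℝ, 0 ≤ t → t < u → u < 1 / 2 →
      ((P.map (fun ω => eta (Pi ω) t) ≪ P.map (fun ω => eta (Pi ω) u) ∧
        P.map (fun ω => eta (Pi ω) u) ≪ P.map (fun ω => eta (Pi ω) t)) ↔ 0 < t)) ∧
    ∀ a b c d : ℝ, 0 ≤ a → a < b → b ≤ 1 → 0 ≤ c → c < d → d ≤ 1 →
      (((a = 0 ↔ c = 0) ∧ (b = 1 ↔ d = 1)) →
        P.map (fun ω => win a b (Pi ω)) ≪ P.map (fun ω => win c d (Pi ω)) ∧
          P.map (fun ω => win c d (Pi ω)) ≪ P.map (fun ω => win a b (Pi ω))) ∧
      (¬ ((a = 0 ↔ c = 0) ∧ (b = 1 ↔ d = 1)) →
        P.map (fun ω => win a b (Pi ω)) ⟂ₘ P.map (fun ω => win c d (Pi ω))) := by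
  refine ⟨fun t u ht htu hu => main hL hPi hgeo ht htu hu,
    fun a b c d ha hab hb hc hcd hd => ⟨fun h => ⟨?_, ?_⟩, fun h => ?_⟩⟩
  · exact ac_same hL hPi hgeo ha hab hb hc hcd hd h.1 h.2
  · exact ac_same hL hPi hgeo hc hcd hd ha hab hb h.1.symm h.2.symm
  · exact sing_diff hL hPi hgeo ha hab hb hc hcd hd h

end Pool.Agent.Results.MP_c0d2f2_pr.GeodesicIncrements
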